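import Pool.Agent.Lib.MP_e05f17_lc.Cor

/-!
# Counting paths in graphs with linearly many near-twins

For all `δ > 0` and `D` there is one Turing machine (Mathlib's multi-stack machines, binary input and
output) which, given a graph `G` with `n` vertices, two distinct vertices `s`, `t` and a set `S` of
numbers, outputs in binary the number of the paths from `s` to `t` whose number of vertices belongs to
`S`, always within `C n ^ C 2 ^ n` steps, and within `C (2 - ε) ^ n` steps if `G` has at least `δ n`
pairwise disjoint pairs of vertices with on the whole at most `D n` distinguishing vertices, or if `G` has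
linear neighbourhood complexity (the neighbourhoods leave at most `D |A|` different traces on every
nonempty set `A` of vertices), or at most `D n` edges, or at most `D n` non-edges. With `S` the set of all
numbers the output is the number `P(G; s, t)` of all paths from `s` to `t`, with `S = {n}` it is the number
of Hamiltonian paths.

The machine sums a polynomial time function over the leaves of a search tree (inclusion-exclusion). In
the block of a pair `{u, v}` of near-twins, the subsets which meet the block exactly in `v` have the same
value as those that meet it exactly in `u`; vertices (hubs) that distinguish many of the pairs are dealt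
with by replacing the adjacency of `u` to the hubs by that of `v`, and correcting this for at most two
pairs for each hub. Graphs with few edges or non-edges and graphs of linear neighbourhood complexity
(Haussler's packing lemma) have linearly many near-twins.
-/

namespace Pool.Agent.Results.MP_e05f17_lc.NearTwinsCount

open Pool.Agent.Lib.MP_e05f17_lc Pool.Agent.Lib.MP_33f9c4_lc

theorem result (δ : ℝ) (hδ : 0 < δ) (D : ℕ) :
    ∃ (U : Machine) (ε : ℝ) (C : ℕ), 0 < ε ∧ ε < 1 ∧
      ∀ (n : ℕ) (G : SimpleGraph (Fin n)) (s t : Fin n) (S : Set ℕ), s ≠ t →
        Outputs U (input G s t S) (Nat.bits (pathCount G s t S)) (C * n ^ C * 2 ^ n) ∧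
        (NearTwins G δ D ∨ LinComplexity G D ∨ G.edgeSet.ncard ≤ D * n ∨
            Gᶜ.edgeSet.ncard ≤ D * n →
          Outputs U (input G s t S) (Nat.bits (pathCount G s t S)) ⌊(C : ℝ) * (2 - ε) ^ n⌋₊) :=
  main_all δ hδ D

end Pool.Agent.Results.MP_e05f17_lc.NearTwinsCount
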